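import Pool.Agent.H76D.B
import Pool.Agent.B17.LC
import Pool.Agent.N87.T33b

set_option autoImplicit false

namespace Pool.Agent.N87H

/-- exceptional primes of `q + 1` -/
theorem X2h {p q a b u v K c t m : ℕ} (hp : p.Prime) (hp2 : p ≠ 2) (hq5 : 5 ≤ q)
    (hq4 : q % 4 = 1) (hv : 1 ≤ v) (hP : p ^ v ∣ q + 1) (hPq : 2 * p ^ v ≤ q + 1)
    (hva : v ≤ 2 * a) (hg : (p - 1) * u * q ^ b + 1 = p ^ (2 * a + 1)) (hb : Even b)
    (hb2 : 2 ≤ b) (hu : 1 ≤ u) (hct : c + t = 2 * a) (hc : p ^ c ≤ p ^ v * K)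
    (hm : u * p ^ t ≤ m) : q ^ 2 ≤ 2 * K * m := by
  have hp3 : 3 ≤ p := by
    have := hp.two_le
    omega
  rcases Pool.Agent.B17.LC hp hp2 hq5 hq4 hv hP hPq hva hg hb hb2 hu hct hc hm with h | ⟨rfl, rfl, rfl, ha⟩
  · exact h
  · rw [mul_one] at hg
    exact (Pool.Agent.N87.noSq hp hp3 ha hg).elim

end Pool.Agent.N87H
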